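import Pool.Agent.EGF.Stmts

/-!
# EGF, row RAT: a record set with bounded ratio
-/

namespace Pool.Agent.EGF.H48

open Finset Pool.Agent.EGF

theorem pal_card_pos {V : Type} [DecidableEq V] {k : ℕ} (c : V → V → Fin k) (S : Finset V)
    (h : 2 ≤ S.card) : 0 < (pal c S).card := by
  obtain ⟨x, hx, y, hy, hxy⟩ := Finset.one_lt_card.mp h
  refine Finset.card_pos.mpr ⟨c x y, ?_⟩
  exact Finset.mem_image.mpr
    ⟨(x, y), Finset.mem_filter.mpr ⟨Finset.mem_product.mpr ⟨hx, hy⟩, hxy⟩, rfl⟩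

theorem nonempty_of_pal {V : Type} [DecidableEq V] {k : ℕ} (c : V → V → Fin k) (S : Finset V)
    (h : 0 < (pal c S).card) : S.Nonempty := by
  obtain ⟨a, ha⟩ := Finset.card_pos.mp h
  obtain ⟨p, hp, -⟩ := Finset.mem_image.mp ha
  exact ⟨p.1, (Finset.mem_product.mp (Finset.mem_filter.mp hp).1).1⟩

/-- the numerical part -/
theorem num {β A P a p u q : ℝ} (hβ : 0 < β) (hA : 0 < A) (hP : 0 < P) (hr : β * P ≤ A)
    (ha0 : 0 ≤ a) (haA : a ≤ A) (hp : 1 ≤ p) (hq : 0 < q)
    (hmW : A ^ 3 / P ≤ a ^ 3 / p) (hmU : u ^ 3 / q ≤ a ^ 3 / p)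
    (hu : a / 2 ≤ u) :
    β ≤ a / p ∧ u ≤ 8 * (a / p / 2) * q ∧ β * A ^ 2 ≤ 8 * u ^ 3 ∧ 0 < a := by
  have hp0 : 0 < p := by linarith
  have h1 : β * A ^ 2 ≤ A ^ 3 / P := by
    rw [le_div_iff₀ hP]
    nlinarith [mul_le_mul_of_nonneg_left hr (sq_nonneg A)]
  have h2 : β * A ^ 2 ≤ a ^ 3 / p := h1.trans hmW
  have h3 : β * A ^ 2 * p ≤ a ^ 3 := by rwa [le_div_iff₀ hp0] at h2
  have hbA : 0 < β * A ^ 2 := by positivity
  have h4 : β * A ^ 2 ≤ a ^ 3 := by nlinarith
  have ha : 0 < a := by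
    rcases ha0.lt_or_eq with h | h
    · exact h
    · rw [← h] at h4
      norm_num at h4
      linarith
  have hu0 : 0 < u := by linarith
  refine ⟨?_, ?_, ?_, ha⟩
  · rw [le_div_iff₀ hp0]
    have h5 : a ^ 2 ≤ A ^ 2 := by gcongr
    have h6 : β * a ^ 2 * p ≤ a ^ 3 := by
      refine le_trans ?_ h3
      gcongr
    have h7 : a ^ 2 * (β * p) ≤ a ^ 2 * a := by nlinarith
    exact le_of_mul_le_mul_left h7 (by positivity)
  · have h5 : u ^ 3 * p ≤ a ^ 3 * q := by
      rwa [div_le_div_iff₀ hq hp0] at hmU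
    have h6 : a ^ 2 ≤ 4 * u ^ 2 := by nlinarith
    have h7 : u ^ 2 * (u * p) ≤ u ^ 2 * (4 * a * q) := by
      have h8 : a ^ 2 * (a * q) ≤ 4 * u ^ 2 * (a * q) :=
        mul_le_mul_of_nonneg_right h6 (by positivity)
      nlinarith
    have h9 : u * p ≤ 4 * a * q := le_of_mul_le_mul_left h7 (by positivity)
    have h10 : 8 * (a / p / 2) * q = (4 * a * q) / p := by field_simp; ring
    rw [h10, le_div_iff₀ hp0]
    exact h9
  · have h5 : (a / 2) ^ 3 ≤ u ^ 3 := by gcongr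
    nlinarith

/-- **RAT.** -/
theorem rat (h : RecStmt) : RatStmt := by
  intro V _ k c W β hβ hW hr
  have hPW : 0 < (pal c W).card := pal_card_pos c W hW
  have hne : (W.powerset.filter fun S => 0 < (pal c S).card).Nonempty :=
    ⟨W, Finset.mem_filter.mpr ⟨Finset.mem_powerset.mpr (Finset.Subset.refl W), hPW⟩⟩
  obtain ⟨W1, hW1, hmax⟩ := Finset.exists_max_image _
    (fun S : Finset V => (Real.log S.card) ^ 3 / ((pal c S).card : ℝ)) hne
  rw [Finset.mem_filter, Finset.mem_powerset] at hW1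
  obtain ⟨hsub, hp1⟩ := hW1
  have hW1ne : W1.Nonempty := nonempty_of_pal c W1 hp1
  have hc1 : (1 : ℝ) ≤ W1.card := by exact_mod_cast Finset.card_pos.mpr hW1ne
  have ha0 : 0 ≤ Real.log W1.card := Real.log_nonneg hc1
  have haA : Real.log W1.card ≤ Real.log W.card :=
    Real.log_le_log (by linarith) (by exact_mod_cast Finset.card_le_card hsub)
  have hA : 0 < Real.log W.card := Real.log_pos (by
    have : (2 : ℝ) ≤ W.card := by exact_mod_cast hW
    linarith)
  have hp : (1 : ℝ) ≤ (pal c W1).card := by exact_mod_cast hp1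
  have hP : (0 : ℝ) < (pal c W).card := by exact_mod_cast hPW
  have hmW := hmax W (Finset.mem_filter.mpr
    ⟨Finset.mem_powerset.mpr (Finset.Subset.refl W), hPW⟩)
  obtain ⟨hR, -, -, ha⟩ := num hβ hA hP hr ha0 haA hp (by linarith) hmW le_rfl (by linarith)
  obtain ⟨U, hU, hRec, hlog⟩ := h V k c W1 (Real.log W1.card / (pal c W1).card / 2) hW1ne
  have hq0 : (0 : ℝ) ≤ (pal c U).card := Nat.cast_nonneg _
  have hθ : 0 ≤ Real.log W1.card / (pal c W1).card / 2 := by positivity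
  have hhalf : Real.log W1.card / (pal c W1).card / 2 * (pal c W1).card
      = Real.log W1.card / 2 := by
    have : (0 : ℝ) < (pal c W1).card := by linarith
    field_simp
  have hu : Real.log W1.card / 2 ≤ Real.log U.card := by
    have := mul_nonneg hθ hq0
    rw [hhalf] at hlog
    linarith
  have hU2 : 2 ≤ U.card := by
    by_contra hcon
    have h1 : U.card = 0 ∨ U.card = 1 := by omega
    rcases h1 with h1 | h1
    · rw [h1] at hu
      simp only [Nat.cast_zero, Real.log_zero] at hu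
      linarith
    · rw [h1] at hu
      simp only [Nat.cast_one, Real.log_one] at hu
      linarith
  have hqU : 0 < (pal c U).card := pal_card_pos c U hU2
  have hmU := hmax U (Finset.mem_filter.mpr
    ⟨Finset.mem_powerset.mpr (hU.trans hsub), hqU⟩)
  obtain ⟨-, hb, hc, -⟩ := num hβ hA hP hr ha0 haA hp (by exact_mod_cast hqU) hmW hmU hu
  exact ⟨U, _, hU.trans hsub, hRec, by linarith, hb, hqU, hc⟩

end Pool.Agent.EGF.H48
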